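import Pool.Agent.H992.SF.GDefs

/-!
# Riesz representation for bounded families (interface `S_RZ`)
-/

set_option autoImplicit false
set_option linter.unusedSectionVars false
open MeasureTheory Filter Topology Complex
open scoped ContDiff ENNReal

namespace Pool.Agent.H767.SG

variable {X : Type} [mX : MeasurableSpace X] {κ : Type}

/-- a finite linear combination of the family -/
noncomputable def lc (e : κ → X → ℂ) (c : κ →₀ ℂ) (x : X) : ℂ := c.sum fun k z => z * e k x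

theorem meas_lc {e : κ → X → ℂ} (he : ∀ k, Measurable (e k)) (c : κ →₀ ℂ) :
    Measurable (lc e c) := by
  unfold lc Finsupp.sum
  exact Finset.measurable_sum _ fun k _ => (he k).const_mul _

theorem bd_lc {e : κ → X → ℂ} (he : ∀ k x, ‖e k x‖ ≤ 1) (c : κ →₀ ℂ) (x : X) :
    ‖lc e c x‖ ≤ ∑ k ∈ c.support, ‖c k‖ := by
  unfold lc Finsupp.sum
  refine (norm_sum_le _ _).trans (Finset.sum_le_sum fun k _ => ?_)
  rw [norm_mul]
  exact mul_le_of_le_one_right (norm_nonneg _) (he k x)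

theorem memLp_lc {e : κ → X → ℂ} (hm : ∀ k, Measurable (e k)) (he : ∀ k x, ‖e k x‖ ≤ 1)
    (c : κ →₀ ℂ) (γ : Measure X) [IsFiniteMeasure γ] : MemLp (lc e c) 2 γ :=
  MemLp.of_bound (meas_lc hm c).aestronglyMeasurable _ (Eventually.of_forall (bd_lc he c))

theorem lc_add (e : κ → X → ℂ) (c d : κ →₀ ℂ) (x : X) :
    lc e (c + d) x = lc e c x + lc e d x := by
  unfold lc
  exact Finsupp.sum_add_index' (fun _ => zero_mul _) (fun _ _ _ => add_mul _ _ _)

theorem lc_smul (e : κ → X → ℂ) (a : ℂ) (c : κ →₀ ℂ) (x : X) :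
    lc e (a • c) x = a * lc e c x := by
  unfold lc
  rw [Finsupp.sum_smul_index' (fun _ => zero_mul _), Finsupp.mul_sum]
  refine Finsupp.sum_congr fun k _ => ?_
  rw [smul_eq_mul, mul_assoc]

theorem lc_single (e : κ → X → ℂ) (k : κ) (x : X) :
    lc e (Finsupp.single k 1) x = e k x := by
  unfold lc
  rw [Finsupp.sum_single_index (zero_mul _), one_mul]

/-- the map from linear combinations to `L²` -/
noncomputable def toL {e : κ → X → ℂ} (hm : ∀ k, Measurable (e k)) (he : ∀ k x, ‖e k x‖ ≤ 1)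
    (γ : Measure X) [IsFiniteMeasure γ] : (κ →₀ ℂ) →ₗ[ℂ] Lp ℂ 2 γ where
  toFun c := (memLp_lc hm he c γ).toLp
  map_add' c d := by
    rw [← MemLp.toLp_add]
    apply MemLp.toLp_congr
    exact Eventually.of_forall fun x => lc_add e c d x
  map_smul' a c := by
    rw [RingHom.id_apply, ← MemLp.toLp_const_smul]
    apply MemLp.toLp_congr
    exact Eventually.of_forall fun x => lc_smul e a c x

/-- the functional -/
noncomputable def fn (L : κ → ℂ) : (κ →₀ ℂ) →ₗ[ℂ] ℂ where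
  toFun c := c.sum fun k z => z * L k
  map_add' c d := Finsupp.sum_add_index' (fun _ => zero_mul _) (fun _ _ _ => add_mul _ _ _)
  map_smul' a c := by
    rw [Finsupp.sum_smul_index' (fun _ => zero_mul _), RingHom.id_apply, smul_eq_mul,
      Finsupp.mul_sum]
    refine Finsupp.sum_congr fun k _ => ?_
    rw [smul_eq_mul, mul_assoc]

theorem norm_toL {e : κ → X → ℂ} (hm : ∀ k, Measurable (e k)) (he : ∀ k x, ‖e k x‖ ≤ 1)
    (γ : Measure X) [IsFiniteMeasure γ] (c : κ →₀ ℂ) :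
    ‖toL hm he γ c‖ ^ 2 = ∫ x, ‖lc e c x‖ ^ 2 ∂γ := by
  have h1 : ((‖toL hm he γ c‖ ^ 2 : ℝ) : ℂ) = inner ℂ (toL hm he γ c) (toL hm he γ c) := by
    rw [inner_self_eq_norm_sq_to_K]
    norm_cast
  have h2 : (inner ℂ (toL hm he γ c) (toL hm he γ c) : ℂ) =
      ((∫ x, ‖lc e c x‖ ^ 2 ∂γ : ℝ) : ℂ) := by
    rw [L2.inner_def, ← integral_complex_ofReal]
    refine integral_congr_ae ?_
    filter_upwards [(memLp_lc hm he c γ).coeFn_toLp] with x hx
    show inner ℂ ((memLp_lc hm he c γ).toLp (lc e c) x)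
      ((memLp_lc hm he c γ).toLp (lc e c) x) = _
    rw [hx, inner_self_eq_norm_sq_to_K]
    norm_cast
  exact_mod_cast h1.trans h2

/-- the Riesz representation of a bounded functional on linear combinations -/
theorem riesz' {e : κ → X → ℂ} (hm : ∀ k, Measurable (e k)) (he : ∀ k x, ‖e k x‖ ≤ 1)
    (ℓ : (κ →₀ ℂ) →ₗ[ℂ] ℂ) (γ : Measure X) [IsFiniteMeasure γ] {C : ℝ}
    (hC : ∀ c : κ →₀ ℂ, ‖ℓ c‖ ^ 2 ≤ C * ∫ x, ‖lc e c x‖ ^ 2 ∂γ) :
    ∃ h : Lp ℂ 2 γ, ∀ c, ℓ c = inner ℂ h (toL hm he γ c) := by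
  have hC0 : 0 ≤ max C 0 := le_max_right _ _
  have hb : ∀ c, ‖ℓ c‖ ≤ √(max C 0) * ‖toL hm he γ c‖ := by
    intro c
    have h1 := hC c
    rw [← norm_toL hm he γ c] at h1
    have h2 : ‖ℓ c‖ ^ 2 ≤ (√(max C 0) * ‖toL hm he γ c‖) ^ 2 := by
      rw [mul_pow, Real.sq_sqrt hC0]
      exact h1.trans (mul_le_mul_of_nonneg_right (le_max_left _ _) (sq_nonneg _))
    exact le_of_sq_le_sq h2 (by positivity)
  have hker : LinearMap.ker (toL hm he γ) ≤ LinearMap.ker ℓ := by
    intro c hc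
    rw [LinearMap.mem_ker] at hc ⊢
    have h1 := hb c
    rw [hc, norm_zero, mul_zero] at h1
    exact norm_le_zero_iff.1 h1
  let L : LinearMap.range (toL hm he γ) →ₗ[ℂ] ℂ :=
    ((LinearMap.ker (toL hm he γ)).liftQ ℓ hker).comp
      (LinearMap.quotKerEquivRange (toL hm he γ)).symm.toLinearMap
  have hL : ∀ c, L ⟨toL hm he γ c, LinearMap.mem_range_self _ c⟩ = ℓ c := by
    intro c
    have h1 : (LinearMap.quotKerEquivRange (toL hm he γ)).symm
        ⟨toL hm he γ c, LinearMap.mem_range_self _ c⟩ =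
        (LinearMap.ker (toL hm he γ)).mkQ c := by
      rw [LinearEquiv.symm_apply_eq]
      rfl
    show ((LinearMap.ker (toL hm he γ)).liftQ ℓ hker)
      ((LinearMap.quotKerEquivRange (toL hm he γ)).symm _) = _
    rw [h1]
    simp
  have hLb : ∀ s, ‖L s‖ ≤ √(max C 0) * ‖s‖ := by
    rintro ⟨s, c, rfl⟩
    rw [hL c]
    exact hb c
  obtain ⟨g, hg, -⟩ := exists_extension_norm_eq (LinearMap.range (toL hm he γ))
    (L.mkContinuous _ hLb)
  refine ⟨(InnerProductSpace.toDual ℂ (Lp ℂ 2 γ)).symm g, fun c => ?_⟩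
  rw [InnerProductSpace.toDual_symm_apply]
  have := hg ⟨toL hm he γ c, LinearMap.mem_range_self _ c⟩
  rw [this]
  exact (hL c).symm

theorem core (Γ : Measure X) (hΓ : IsProbabilityMeasure Γ) (e : κ → X → ℂ) (L : κ → ℂ) (C : ℝ)
    (hm : ∀ k, Measurable (e k)) (he : ∀ k x, ‖e k x‖ ≤ 1)
    (hC : ∀ (n : ℕ) (c : Fin n → ℂ) (τ : Fin n → κ),
      ‖∑ m, c m * L (τ m)‖ ^ 2 ≤ C * ∫ x, ‖∑ m, c m * e (τ m) x‖ ^ 2 ∂Γ) :
    ∃ h : X → ℂ, MemLp h 2 Γ ∧ ∀ k, L k = ∫ x, (starRingEnd ℂ) (h x) * e k x ∂Γ := by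
  have key : ∀ c : κ →₀ ℂ, ‖fn L c‖ ^ 2 ≤ C * ∫ x, ‖lc e c x‖ ^ 2 ∂Γ := by
    intro c
    have hs : ∀ f : κ → ℂ, ∑ m : Fin c.support.card,
        c (c.support.equivFin.symm m) * f (c.support.equivFin.symm m) = c.sum fun k z => z * f k := by
      intro f
      rw [Equiv.sum_comp c.support.equivFin.symm (fun k : c.support => c k * f k)]
      exact Finset.sum_coe_sort c.support (fun k => c k * f k)
    have h1 := hC c.support.card (fun m => c (c.support.equivFin.symm m))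
      (fun m => c.support.equivFin.symm m)
    rw [hs L] at h1
    have h2 : ∀ x, ∑ m : Fin c.support.card,
        c (c.support.equivFin.symm m) * e (c.support.equivFin.symm m) x = lc e c x :=
      fun x => hs fun k => e k x
    simp_rw [h2] at h1
    exact h1
  obtain ⟨h, hh⟩ := riesz' hm he (fn L) Γ key
  refine ⟨h, Lp.memLp h, fun k => ?_⟩
  have h1 := hh (Finsupp.single k 1)
  have h2 : fn L (Finsupp.single k 1) = L k := by
    show (Finsupp.single k (1 : ℂ)).sum (fun k z => z * L k) = _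
    rw [Finsupp.sum_single_index (zero_mul _), one_mul]
  rw [h2] at h1
  rw [h1, L2.inner_def]
  refine integral_congr_ae ?_
  filter_upwards [(memLp_lc hm he (Finsupp.single k 1) Γ).coeFn_toLp] with x hx
  show inner ℂ (h x) ((memLp_lc hm he (Finsupp.single k 1) Γ).toLp
    (lc e (Finsupp.single k 1)) x) = _
  rw [hx, lc_single, RCLike.inner_apply, mul_comm]

theorem rz : Pool.Agent.H992.SF.S_RZ := by
  intro X _ Γ hΓ κ e L C hm he hC
  exact core Γ hΓ e L C hm he hC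

end Pool.Agent.H767.SG
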